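import Pool.Agent.H.MP_776ebc_al.Main

set_option autoImplicit false

namespace Pool.Agent.Results.MP_776ebc_al.Q1

theorem result (K : Type) [Field K] (n : ℕ) (hn : 3 ≤ n) :
    ∃ w : List (Fin 2), w.length = 2 * n - 2 ∧
      (w.map (FreeAlgebra.ι K)).prod ∉
        TwoSidedIdeal.span {z : FreeAlgebra K (Fin 2) |
          ∃ U ∈ sInf {L : Submodule K (FreeAlgebra K (Fin 2)) | FreeAlgebra.ι K 0 ∈ L ∧
            FreeAlgebra.ι K 1 ∈ L ∧ ∀ a ∈ L, ∀ b ∈ L, a * b - b * a ∈ L}, z = U ^ n} := by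
  obtain ⟨m, rfl⟩ : ∃ m, n = m + 2 := ⟨n - 2, by omega⟩
  refine ⟨List.replicate (m + 1) 0 ++ [1] ++ List.replicate m 0, by simp; omega, ?_⟩
  simpa [mul_assoc] using Pool.Agent.H.MP_776ebc_al.main K m

end Pool.Agent.Results.MP_776ebc_al.Q1
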